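import Pool.Agent.H.MP_3f28ca_an.Prob

namespace Pool.Agent.Results.MP_3f28ca_an.Yes

open Filter Topology MeasureTheory Pool.Agent.H.MP_3f28ca_an

theorem result : ∃ ϑ : Bool → PMF (List Bool), IsRandomSubst ϑ ∧ Primitive ϑ ∧
    ∀ (α : Bool) (Ω : Type) [MeasurableSpace Ω] (μ : Measure Ω) [IsProbabilityMeasure μ]
      (W : ℕ → Ω → List Bool), (∀ n w, μ {ω | W n ω = w} = iter ϑ α n w) →
      ∀ v : List Bool, v ≠ [] → ∀ᵐ ω ∂μ,
        Tendsto (fun n => (occ v (W n ω) : ℝ) / (W n ω).length) atTop (𝓝 (parry v)) := by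
  refine ⟨th, fun α => ⟨(Set.toFinite _).subset (th_supp α), fun h => by simpa using th_supp α h⟩,
    ⟨1, one_pos, fun β α => by rw [pow_one]; exact th_mat β α⟩, fun α Ω _ μ _ W hW v hv => ?_⟩
  have key : ∀ k : ℕ, ∀ᵐ ω ∂μ, ∀ᶠ n in atTop, ω ∉ {ω | W (n + 1) ω ∈ bad v (1 / ((k : ℝ) + 1))} := by
    intro k
    refine ae_eventually_notMem (ne_top_of_le_ne_top
      (sum_bad (ε := 1 / ((k : ℝ) + 1)) hv (by positivity) α) (ENNReal.tsum_le_tsum fun n => ?_))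
    have hsub : {ω | W (n + 1) ω ∈ bad v (1 / ((k : ℝ) + 1))} ⊆
        ⋃ w, {ω | W (n + 1) ω = w ∧ w ∈ bad v (1 / ((k : ℝ) + 1))} :=
      fun ω h => Set.mem_iUnion.2 ⟨_, rfl, h⟩
    refine (measure_mono hsub).trans ((measure_iUnion_le _).trans (ENNReal.tsum_le_tsum fun w => ?_))
    by_cases hb : w ∈ bad v (1 / ((k : ℝ) + 1))
    · rw [Set.indicator_of_mem hb, ← hW, Pi.one_apply, mul_one]
      exact measure_mono fun ω h => h.1
    · simp only [hb, and_false]; simp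
  filter_upwards [ae_all_iff.2 key] with ω hω
  rw [← tendsto_add_atTop_iff_nat 1, Metric.tendsto_nhds]
  intro ε hε
  obtain ⟨k, hk⟩ := exists_nat_one_div_lt hε
  filter_upwards [hω k] with n hn
  rw [Real.dist_eq]
  exact (not_le.1 hn).trans hk

end Pool.Agent.Results.MP_3f28ca_an.Yes
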